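import Mathlib

/-!
# Regular polygons in projective-metric spaces: a counterexample in every dimension m ≥ 3

The metric is `d x y = N (x - y)`, where `N` is the norm
`N x = √((|w| + |x₁|)² + x₀²)`, `w` being `x` with its coordinate `x₀` replaced by `0`.
-/

open Set
open scoped RealInnerProductSpace

namespace Pool.Agent.Results.MP_a3bfba_gt.HighDim

/-- The real affine space of dimension `m` with its usual topology; with its own distance it is
also the Euclidean space of dimension `m`. -/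
abbrev E (m : ℕ) : Type := EuclideanSpace ℝ (Fin m)

/-- `d` is a metric on `X`. -/
structure IsMetric {X : Type} (d : X → X → ℝ) : Prop where
  self : ∀ x, d x x = 0
  pos : ∀ x y, x ≠ y → 0 < d x y
  symm : ∀ x y, d x y = d y x
  triangle : ∀ x y z, d x z ≤ d x y + d y z

/-- `(M, d)` is a projective-metric space of dimension `m` of straight type: `m ≥ 2`, `M` is a
nonempty open convex subset of the affine space, `d` is a metric on `M` which induces the usual
topology, and for distinct `x y z` one has `d x y + d y z = d x z` exactly when `y` lies on the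
open segment from `x` to `z`. -/
structure IsStraightProjectiveMetric {m : ℕ} (M : Set (E m)) (d : M → M → ℝ) : Prop where
  two_le : 2 ≤ m
  nonempty : M.Nonempty
  isOpen : IsOpen M
  convex : Convex ℝ M
  metric : IsMetric d
  usual_topology : ∀ U : Set M, IsOpen U ↔ ∀ x ∈ U, ∃ ε > 0, ∀ y, d x y < ε → y ∈ U
  between_iff : ∀ x y z : M, x ≠ y → y ≠ z → x ≠ z →
    (d x y + d y z = d x z ↔ (y : E m) ∈ openSegment ℝ (x : E m) (z : E m))

/-- On every affine line, `d` is a multiple of the affine parameter distance (so a full affine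
line contained in `M`, with the restriction of `d`, is isometric to the real line). -/
def AffineOnLines {m : ℕ} (M : Set (E m)) (d : M → M → ℝ) : Prop :=
  ∀ a v : E m, v ≠ 0 → ∃ c : ℝ, 0 < c ∧ ∀ (s t : ℝ) (hs : a + s • v ∈ M) (ht : a + t • v ∈ M),
    d ⟨a + s • v, hs⟩ ⟨a + t • v, ht⟩ = c * |s - t|

/-- A regular (totally equilateral) `n`-gon for `d`: pairwise distinct vertices, indices modulo
`n`, and `d (P i) (P j) = d (P (i + h)) (P (j + h))` for all `i j h`. -/
def IsRegularPolygon {X : Type} (d : X → X → ℝ) {n : ℕ} (P : ZMod n → X) : Prop :=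
  Function.Injective P ∧ ∀ i j h : ZMod n, d (P i) (P j) = d (P (i + h)) (P (j + h))

/-- The regular polygon property: for every `n ≥ 3`, any two distinct points are adjacent
vertices of a regular `n`-gon. -/
def HasRegularPolygonProperty {X : Type} (d : X → X → ℝ) : Prop :=
  ∀ n : ℕ, 3 ≤ n → ∀ A B : X, A ≠ B →
    ∃ P : ZMod n → X, IsRegularPolygon d P ∧ ∃ i : ZMod n, P i = A ∧ P (i + 1) = B

/-- `(X, d)` and `(Y, e)` are isometric. -/
def IsometricTo {X Y : Type} (d : X → X → ℝ) (e : Y → Y → ℝ) : Prop :=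
  ∃ f : X ≃ Y, ∀ x x' : X, e (f x) (f x') = d x x'

/-- The distance of the `k`-dimensional Euclidean space. -/
noncomputable def euclideanDist (k : ℕ) (x y : E k) : ℝ := dist x y

/-- The distance of the `k`-dimensional hyperbolic space of constant curvature `-κ`
(hyperboloid model): `x` stands for the point `(x, √(1 + |x|²))` of the upper sheet, and
`cosh (√κ · dist) = √(1 + |x|²) √(1 + |y|²) - ⟨x, y⟩`. -/
noncomputable def hyperbolicDist (κ : ℝ) (k : ℕ) (x y : E k) : ℝ :=
  Real.arcosh (√(1 + ‖x‖ ^ 2) * √(1 + ‖y‖ ^ 2) - ⟪x, y⟫) / √κ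

/-! ## The norm -/

section norm

variable {k : ℕ}

/-- the unit vector in direction `x₀` -/
noncomputable def e0 : E (k + 3) := EuclideanSpace.single 0 1

/-- `x` with coordinate `x₀` replaced by `0` -/
noncomputable def w (x : E (k + 3)) : E (k + 3) := x - x 0 • e0

/-- the norm of the factor `x₀ = 0` -/
noncomputable def p (x : E (k + 3)) : ℝ := ‖w x‖ + |x 1|

/-- the norm -/
noncomputable def N (x : E (k + 3)) : ℝ := ‖(⟨p x, x 0⟩ : ℂ)‖

lemma w_add (x y : E (k + 3)) : w (x + y) = w x + w y := by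
  simp only [w, PiLp.add_apply, add_smul]; abel

lemma w_smul (c : ℝ) (x : E (k + 3)) : w (c • x) = c • w x := by
  simp only [w, PiLp.smul_apply, smul_eq_mul, smul_sub, mul_smul]

lemma w_zero_apply (x : E (k + 3)) : (w x) 0 = 0 := by
  simp [w, e0]

lemma w_one_apply (x : E (k + 3)) : (w x) 1 = x 1 := by
  simp [w, e0]

lemma decomp (x : E (k + 3)) : x = x 0 • e0 + w x := by
  simp [w]

lemma p_nonneg (x : E (k + 3)) : 0 ≤ p x := by unfold p; positivity

lemma p_add (x y : E (k + 3)) : p (x + y) ≤ p x + p y := by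
  unfold p
  rw [w_add, PiLp.add_apply]
  have h1 := norm_add_le (w x) (w y)
  have h2 := abs_add_le (x 1) (y 1)
  linarith

lemma p_smul (c : ℝ) (x : E (k + 3)) : p (c • x) = |c| * p x := by
  unfold p
  rw [w_smul, norm_smul, PiLp.smul_apply, smul_eq_mul, abs_mul, Real.norm_eq_abs]
  ring

lemma abs_apply_le (x : E (k + 3)) (i : Fin (k + 3)) : |x i| ≤ ‖x‖ := by
  rw [← Real.norm_eq_abs]
  exact PiLp.norm_apply_le x i

lemma norm_sq_decomp (x : E (k + 3)) : ‖x‖ ^ 2 = x 0 ^ 2 + ‖w x‖ ^ 2 := by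
  have h : ⟪x 0 • (e0 : E (k + 3)), w x⟫ = 0 := by
    rw [inner_smul_left]
    simp [e0, EuclideanSpace.inner_single_left, w_zero_apply]
  conv_lhs => rw [decomp x]
  rw [@norm_add_sq_real, h, norm_smul]
  simp [e0]

lemma N_sq (x : E (k + 3)) : N x ^ 2 = p x ^ 2 + x 0 ^ 2 := by
  unfold N
  rw [Complex.sq_norm, Complex.normSq_mk]
  ring

lemma N_nonneg (x : E (k + 3)) : 0 ≤ N x := norm_nonneg _

lemma norm_le_N (x : E (k + 3)) : ‖x‖ ≤ N x := by
  apply le_of_sq_le_sq _ (N_nonneg x)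
  rw [N_sq, norm_sq_decomp]
  have h : ‖w x‖ ≤ p x := by unfold p; linarith [abs_nonneg (x 1)]
  nlinarith [norm_nonneg (w x)]

lemma N_le (x : E (k + 3)) : N x ≤ 2 * ‖x‖ := by
  apply le_of_sq_le_sq _ (by positivity)
  rw [N_sq, mul_pow, norm_sq_decomp]
  have h : p x ≤ 2 * ‖w x‖ := by
    unfold p
    have := abs_apply_le (w x) 1
    rw [w_one_apply] at this
    linarith
  nlinarith [p_nonneg x, norm_nonneg (w x), sq_nonneg (x 0)]

lemma N_smul (c : ℝ) (x : E (k + 3)) : N (c • x) = |c| * N x := by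
  have h1 : N (c • x) ^ 2 = (|c| * N x) ^ 2 := by
    rw [mul_pow, N_sq, N_sq, p_smul, PiLp.smul_apply, smul_eq_mul, mul_pow, mul_pow, sq_abs]
    ring
  exact (pow_left_inj₀ (N_nonneg _) (by positivity [N_nonneg x]) two_ne_zero).1 h1

lemma N_neg (x : E (k + 3)) : N (-x) = N x := by
  have := N_smul (-1) x
  simpa using this

lemma N_sub_comm (x y : E (k + 3)) : N (x - y) = N (y - x) := by
  rw [← N_neg, neg_sub]

lemma N_eq_zero {x : E (k + 3)} (h : N x = 0) : x = 0 := by
  have := norm_le_N x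
  rw [h] at this
  exact norm_le_zero_iff.1 this

lemma N_pos {x : E (k + 3)} (h : x ≠ 0) : 0 < N x :=
  lt_of_le_of_ne (N_nonneg x) fun h' => h (N_eq_zero h'.symm)

lemma N_zero : N (0 : E (k + 3)) = 0 := by
  have := N_le (0 : E (k + 3))
  rw [norm_zero, mul_zero] at this
  exact le_antisymm this (N_nonneg _)

/-- the point of `ℂ` whose absolute value is `N x` -/
noncomputable def q (x : E (k + 3)) : ℂ := ⟨p x, x 0⟩

lemma N_add_le_norm (x y : E (k + 3)) : N (x + y) ≤ ‖q x + q y‖ := by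
  apply le_of_sq_le_sq _ (norm_nonneg _)
  rw [N_sq, Complex.sq_norm, Complex.normSq_apply]
  simp only [q, Complex.add_re, Complex.add_im, PiLp.add_apply]
  nlinarith [p_nonneg (x + y), p_add x y, p_nonneg x, p_nonneg y]

lemma N_add (x y : E (k + 3)) : N (x + y) ≤ N x + N y :=
  (N_add_le_norm x y).trans (norm_add_le _ _)

lemma sameRay_of_N_add {x y : E (k + 3)} (h : N (x + y) = N x + N y) : SameRay ℝ x y := by
  by_cases hx : x = 0
  · rw [hx]; exact SameRay.zero_left _
  by_cases hy : y = 0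
  · rw [hy]; exact SameRay.zero_right _
  have h1 : ‖q x + q y‖ = ‖q x‖ + ‖q y‖ :=
    le_antisymm (norm_add_le _ _) (h ▸ N_add_le_norm x y)
  have h2 : SameRay ℝ (q x) (q y) := sameRay_iff_norm_add.2 h1
  have h3 : p (x + y) = p x + p y := by
    have e : N (x + y) = ‖q x + q y‖ := by rw [h, h1]; rfl
    have e2 : N (x + y) ^ 2 = ‖q x + q y‖ ^ 2 := by rw [e]
    rw [N_sq, Complex.sq_norm, Complex.normSq_apply] at e2
    simp only [q, Complex.add_re, Complex.add_im, PiLp.add_apply] at e2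
    have e3 : p (x + y) ^ 2 = (p x + p y) ^ 2 := by linarith
    exact (pow_left_inj₀ (p_nonneg _) (add_nonneg (p_nonneg x) (p_nonneg y)) two_ne_zero).1 e3
  have h4 : ‖w x + w y‖ = ‖w x‖ + ‖w y‖ := by
    unfold p at h3
    rw [w_add, PiLp.add_apply] at h3
    have h1 := norm_add_le (w x) (w y)
    have h2 := abs_add_le (x 1) (y 1)
    linarith
  have h5 : SameRay ℝ (w x) (w y) := sameRay_iff_norm_add.2 h4
  have qx : q x ≠ 0 := by
    intro e
    have : N x = 0 := by show ‖q x‖ = 0; rw [e, norm_zero]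
    exact hx (N_eq_zero this)
  have qy : q y ≠ 0 := by
    intro e
    have : N y = 0 := by show ‖q y‖ = 0; rw [e, norm_zero]
    exact hy (N_eq_zero this)
  obtain ⟨r, hr, hrq⟩ := h2.exists_pos_left qx qy
  have hre : r * p x = p y := by
    have := congrArg Complex.re hrq
    simpa [q] using this
  have him : r * x 0 = y 0 := by
    have := congrArg Complex.im hrq
    simpa [q] using this
  have hw : r • w x = w y := by
    by_cases wx : w x = 0
    · have px : p x = 0 := by
        unfold p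
        rw [← w_one_apply, wx]
        simp
      have py : p y = 0 := by rw [← hre, px, mul_zero]
      have wy : w y = 0 := by
        unfold p at py
        have := norm_nonneg (w y)
        have := abs_nonneg (y 1)
        exact norm_eq_zero.1 (by linarith)
      rw [wx, wy, smul_zero]
    · obtain ⟨s, hs, hsw⟩ := h5.exists_nonneg_left wx
      have y1 : y 1 = s * x 1 := by
        rw [← w_one_apply y, ← hsw, PiLp.smul_apply, smul_eq_mul, w_one_apply]
      have : p y = s * p x := by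
        unfold p
        rw [← hsw, norm_smul, y1, abs_mul, Real.norm_eq_abs, abs_of_nonneg hs]
        ring
      have px : 0 < p x := by
        unfold p
        have := norm_pos_iff.2 wx
        positivity
      have : s = r := by
        rw [← hre] at this
        exact (mul_right_cancel₀ px.ne' this).symm
      rw [← this, hsw]
  have : r • x = y := by
    calc r • x = r • (x 0 • e0 + w x) := congrArg _ (decomp x)
      _ = (r * x 0) • e0 + r • w x := by rw [smul_add, smul_smul]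
      _ = y 0 • e0 + w y := by rw [him, hw]
      _ = y := (decomp y).symm
  rw [← this]
  exact SameRay.sameRay_nonneg_smul_right x hr.le

lemma N_add_of_sameRay {x y : E (k + 3)} (h : SameRay ℝ x y) : N (x + y) = N x + N y := by
  by_cases hx : x = 0
  · rw [hx, N_zero]; simp
  obtain ⟨r, hr, rfl⟩ := h.exists_nonneg_left hx
  have : x + r • x = (1 + r) • x := by rw [add_smul, one_smul]
  rw [this, N_smul, N_smul, abs_of_nonneg hr, abs_of_nonneg (by linarith)]
  ring

lemma w_e0 : w (e0 : E (k + 3)) = 0 := by simp [w, e0]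

lemma e0_zero : (e0 : E (k + 3)) 0 = 1 := by simp [e0]

lemma e0_one : (e0 : E (k + 3)) 1 = 0 := by simp [e0]

lemma w_w (x : E (k + 3)) : w (w x) = w x := by
  have h : w (w x) = w x - (w x) 0 • e0 := rfl
  rw [h, w_zero_apply, zero_smul, sub_zero]

lemma p_w (x : E (k + 3)) : p (w x) = p x := by
  unfold p
  rw [w_w, w_one_apply]

lemma N_plane {x : E (k + 3)} (hx : w x = x) (hp : p x = 1) (c : ℂ) :
    N (c.re • e0 + c.im • x) = ‖c‖ := by
  have hx0 : x 0 = 0 := by rw [← hx, w_zero_apply]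
  have h0 : (c.re • e0 + c.im • x : E (k + 3)) 0 = c.re := by
    rw [PiLp.add_apply, PiLp.smul_apply, PiLp.smul_apply, e0_zero, hx0]
    simp
  have hp' : p (c.re • e0 + c.im • x) = |c.im| := by
    have h1 : (c.re • e0 + c.im • x : E (k + 3)) 1 = c.im * x 1 := by
      rw [PiLp.add_apply, PiLp.smul_apply, PiLp.smul_apply, e0_one]
      simp
    unfold p
    rw [h1, w_add, w_smul, w_e0, w_smul, smul_zero, zero_add, norm_smul, abs_mul,
      Real.norm_eq_abs, ← mul_add]
    have : ‖w x‖ + |x 1| = 1 := hp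
    rw [this, mul_one]
  have : N (c.re • e0 + c.im • x) ^ 2 = ‖c‖ ^ 2 := by
    rw [N_sq, h0, hp', Complex.sq_norm, Complex.normSq_apply, sq_abs]
    ring
  exact (pow_left_inj₀ (N_nonneg _) (norm_nonneg _) two_ne_zero).1 this

lemma two_ne_zero' : (2 : Fin (k + 3)) ≠ 0 := by
  rw [Ne, Fin.ext_iff, Fin.val_two, Fin.val_zero]; omega

lemma two_ne_one' : (2 : Fin (k + 3)) ≠ 1 := by
  rw [Ne, Fin.ext_iff, Fin.val_two, Fin.val_one]; omega

lemma w_single2 : w (EuclideanSpace.single 2 1 : E (k + 3)) = EuclideanSpace.single 2 1 := by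
  have : (EuclideanSpace.single 2 1 : E (k + 3)) 0 = 0 := by
    simp [two_ne_zero'.symm]
  unfold w
  rw [this, zero_smul, sub_zero]

lemma p_single2 : p (EuclideanSpace.single 2 1 : E (k + 3)) = 1 := by
  have : (EuclideanSpace.single 2 1 : E (k + 3)) 1 = 0 := by
    simp [two_ne_one'.symm]
  unfold p
  rw [w_single2, this]
  simp

/-- every vector lies in a Euclidean plane through the origin -/
lemma exists_plane (v : E (k + 3)) : ∃ x : E (k + 3), w x = x ∧ p x = 1 ∧
    ∃ b : ℂ, v = b.re • e0 + b.im • x := by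
  by_cases hv : w v = 0
  · refine ⟨EuclideanSpace.single 2 1, w_single2, p_single2, ⟨v 0, 0⟩, ?_⟩
    have := decomp v
    rw [hv, add_zero] at this
    simpa using this
  · have hp : 0 < p v := by
      unfold p
      have := norm_pos_iff.2 hv
      positivity
    refine ⟨(p v)⁻¹ • w v, by rw [w_smul, w_w], ?_, ⟨v 0, p v⟩, ?_⟩
    · rw [p_smul, p_w, abs_of_pos (by positivity)]
      field_simp
    · rw [smul_smul]
      simp only []
      rw [mul_inv_cancel₀ hp.ne', one_smul]
      exact decomp v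

end norm

section polygon

variable {k : ℕ}

lemma exists_polygon (n : ℕ) (hn : 3 ≤ n) (A B : E (k + 3)) (hAB : A ≠ B) :
    ∃ P : ZMod n → E (k + 3), Function.Injective P ∧
      (∀ i j h : ZMod n, N (P i - P j) = N (P (i + h) - P (j + h))) ∧ P 0 = A ∧ P 1 = B := by
  have : NeZero n := ⟨by omega⟩
  have : Fact (1 < n) := ⟨by omega⟩
  obtain ⟨x, hx, hp, b, hb⟩ := exists_plane (B - A)
  set ζ : ZMod n → ℂ := fun j => (ZMod.toCircle j : ℂ) with hζ
  have ζadd : ∀ i h, ζ (i + h) = ζ i * ζ h := by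
    intro i h
    simp only [hζ]
    rw [AddChar.map_add_eq_mul]
    simp
  have ζ0 : ζ 0 = 1 := by simp [hζ]
  have ζnorm : ∀ i, ‖ζ i‖ = 1 := fun i => Circle.norm_coe _
  have ζinj : Function.Injective ζ := fun i j h => ZMod.injective_toCircle (Subtype.ext h)
  have ζ1 : 1 - ζ 1 ≠ 0 := by
    intro h
    have : ζ 0 = ζ 1 := by rw [ζ0]; exact sub_eq_zero.1 h
    have := ζinj this
    exact zero_ne_one this
  set c : ℂ := b / (1 - ζ 1) with hc
  have hb0 : b ≠ 0 := by
    rintro rfl
    apply hAB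
    have : B - A = 0 := by rw [hb]; simp
    exact (sub_eq_zero.1 this).symm
  have hc0 : c ≠ 0 := div_ne_zero hb0 ζ1
  set φ : ℂ → E (k + 3) := fun z => A + (z.re • e0 + z.im • x) with hφ
  have hφsub : ∀ z z', N (φ z - φ z') = ‖z - z'‖ := by
    intro z z'
    rw [← N_plane hx hp]
    congr 1
    simp only [hφ, Complex.sub_re, Complex.sub_im, sub_smul]
    abel
  have hφinj : Function.Injective φ := by
    intro z z' h
    have := hφsub z z'
    rw [h, sub_self, N_zero] at this
    exact sub_eq_zero.1 (norm_eq_zero.1 this.symm)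
  refine ⟨fun j => φ (c * (1 - ζ j)), ?_, ?_, ?_, ?_⟩
  · intro i j h
    have h1 := hφinj h
    have h2 := mul_left_cancel₀ hc0 h1
    exact ζinj (sub_right_injective h2)
  · intro i j h
    simp only [hφsub]
    have h1 : c * (1 - ζ i) - c * (1 - ζ j) = c * (ζ j - ζ i) := by ring
    have h2 : c * (1 - ζ (i + h)) - c * (1 - ζ (j + h)) = c * (ζ j - ζ i) * ζ h := by
      rw [ζadd, ζadd]; ring
    rw [h1, h2, norm_mul _ (ζ h), ζnorm, mul_one]
  · simp [hφ, ζ0]
  · have : c * (1 - ζ 1) = b := by rw [hc]; field_simp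
    show φ (c * (1 - ζ 1)) = B
    rw [this]
    simp only [hφ]
    rw [← hb]
    abel

end polygon

section hyperbolic

variable {n : ℕ}

/-- the Lorentz product `x₀ y₀ - ⟨x, y⟩` of the points of the hyperboloid over `x` and `y` -/
noncomputable def B (x y : E n) : ℝ := √(1 + ‖x‖ ^ 2) * √(1 + ‖y‖ ^ 2) - ⟪x, y⟫

lemma one_le_B (x y : E n) : 1 ≤ B x y := by
  unfold B
  have h1 : 0 ≤ √(1 + ‖x‖ ^ 2) := Real.sqrt_nonneg _
  have h2 : 0 ≤ √(1 + ‖y‖ ^ 2) := Real.sqrt_nonneg _
  have e1 : √(1 + ‖x‖ ^ 2) ^ 2 = 1 + ‖x‖ ^ 2 := Real.sq_sqrt (by positivity)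
  have e2 : √(1 + ‖y‖ ^ 2) ^ 2 = 1 + ‖y‖ ^ 2 := Real.sq_sqrt (by positivity)
  have h3 := real_inner_le_norm x y
  have h4 : 1 + ‖x‖ * ‖y‖ ≤ √(1 + ‖x‖ ^ 2) * √(1 + ‖y‖ ^ 2) := by
    apply le_of_sq_le_sq _ (by positivity)
    rw [mul_pow, e1, e2]
    nlinarith [sq_nonneg (‖x‖ - ‖y‖)]
  linarith

/-- the metric midpoint of two points of the hyperboloid is their normalised sum -/
lemma B_midpoint {a b c q : E n} {C : ℝ} (hab : B a b = C) (hac : B a c = C)
    (hbc : B b c = 2 * C ^ 2 - 1) : B b q + B c q = 2 * C * B a q := by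
  set a0 := √(1 + ‖a‖ ^ 2) with ha0
  set b0 := √(1 + ‖b‖ ^ 2) with hb0
  set c0 := √(1 + ‖c‖ ^ 2) with hc0
  have ea : a0 ^ 2 = 1 + ‖a‖ ^ 2 := Real.sq_sqrt (by positivity)
  have eb : b0 ^ 2 = 1 + ‖b‖ ^ 2 := Real.sq_sqrt (by positivity)
  have ec : c0 ^ 2 = 1 + ‖c‖ ^ 2 := Real.sq_sqrt (by positivity)
  have hab' : a0 * b0 - ⟪a, b⟫ = C := hab
  have hac' : a0 * c0 - ⟪a, c⟫ = C := hac
  have hbc' : b0 * c0 - ⟪b, c⟫ = 2 * C ^ 2 - 1 := hbc
  set v : E n := b + c - (2 * C) • a with hv
  set v0 : ℝ := b0 + c0 - 2 * C * a0 with hv0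
  have iab : ⟪b, a⟫ = a0 * b0 - C := by rw [real_inner_comm]; linarith
  have iac : ⟪c, a⟫ = a0 * c0 - C := by rw [real_inner_comm]; linarith
  have hva : ⟪v, a⟫ = v0 * a0 := by
    rw [hv, inner_sub_left, inner_add_left, inner_smul_left, real_inner_self_eq_norm_sq,
      iab, iac, hv0]
    simp only [conj_trivial]
    linear_combination (-2 * C) * ea.symm
  have hvv : ‖v‖ ^ 2 = v0 ^ 2 := by
    rw [hv, norm_sub_sq_real, norm_add_sq_real, inner_smul_right, inner_add_left, iab, iac,
      norm_smul, mul_pow, Real.norm_eq_abs, sq_abs, hv0]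
    linear_combination (-4 * C ^ 2) * ea - eb - ec - 2 * hbc'
  have hv' : v = 0 := by
    have h1 : (v0 * a0) ^ 2 ≤ ‖v‖ ^ 2 * ‖a‖ ^ 2 := by
      rw [← hva, ← mul_pow]
      exact sq_le_sq' (by linarith [neg_le_of_abs_le (abs_real_inner_le_norm v a)])
        (real_inner_le_norm v a)
    have h2 : ‖v‖ ^ 2 ≤ 0 := by
      rw [mul_pow, ← hvv, ea] at h1
      nlinarith
    have := sq_nonneg ‖v‖
    have h3 : ‖v‖ ^ 2 = 0 := le_antisymm h2 this
    exact norm_eq_zero.1 (pow_eq_zero_iff two_ne_zero |>.1 h3)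
  have hv0' : v0 = 0 := by
    rw [hv', norm_zero] at hvv
    exact pow_eq_zero_iff two_ne_zero |>.1 (by rw [← hvv]; norm_num)
  unfold B
  rw [← ha0, ← hb0, ← hc0]
  have h1 : ⟪b, q⟫ + ⟪c, q⟫ = 2 * C * ⟪a, q⟫ := by
    have : ⟪v, q⟫ = 0 := by rw [hv', inner_zero_left]
    rw [hv, inner_sub_left, inner_add_left, inner_smul_left] at this
    simp only [conj_trivial] at this
    linarith
  have h2 : b0 + c0 = 2 * C * a0 := by linarith
  linear_combination √(1 + ‖q‖ ^ 2) * h2 - h1

lemma not_cosh {t : ℝ} (ht : 0 < t) :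
    Real.cosh (3 * t) * Real.cosh (4 * t) ≠ Real.cosh (5 * t) := by
  have hc : 1 < Real.cosh t := Real.one_lt_cosh.2 ht.ne'
  have h2 : Real.cosh (2 * t) = 2 * Real.cosh t ^ 2 - 1 := by
    rw [Real.cosh_two_mul, Real.sinh_sq]; ring
  have h3 : Real.cosh (3 * t) = 4 * Real.cosh t ^ 3 - 3 * Real.cosh t := Real.cosh_three_mul t
  have h4 : Real.cosh (4 * t) = 2 * (2 * Real.cosh t ^ 2 - 1) ^ 2 - 1 := by
    have : 4 * t = 2 * (2 * t) := by ring
    rw [this, Real.cosh_two_mul, Real.sinh_sq, h2]; ring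
  have h7 : Real.cosh (5 * t) + Real.cosh t = 2 * Real.cosh (2 * t) * Real.cosh (3 * t) := by
    have e5 : 5 * t = 3 * t + 2 * t := by ring
    have e1 : t = 3 * t - 2 * t := by ring
    have : Real.cosh (5 * t) + Real.cosh (3 * t - 2 * t) =
        2 * Real.cosh (2 * t) * Real.cosh (3 * t) := by
      rw [e5, Real.cosh_add, Real.cosh_sub]; ring
    rwa [← e1] at this
  intro h
  rw [h2, h3] at h7
  rw [h3, h4] at h
  set c := Real.cosh t
  have h5 : Real.cosh (5 * t) = 2 * (2 * c ^ 2 - 1) * (4 * c ^ 3 - 3 * c) - c := by linarith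
  rw [h5] at h
  have h8 : 8 * c * (c ^ 2 - 1) ^ 2 * (4 * c ^ 2 - 1) = 0 := by linear_combination h
  have h9 : 0 < 8 * c * (c ^ 2 - 1) ^ 2 * (4 * c ^ 2 - 1) := by
    have : 0 < c ^ 2 - 1 := by nlinarith
    have : 0 < 4 * c ^ 2 - 1 := by nlinarith
    positivity
  exact h9.ne' h8

end hyperbolic

/-! ## The main theorem -/

/-- the metric of the counterexample -/
noncomputable def D (k : ℕ) (x y : (univ : Set (E (k + 3)))) : ℝ := N (x.1 - y.1)

lemma isStraight (k : ℕ) : IsStraightProjectiveMetric (univ : Set (E (k + 3))) (D k) where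
  two_le := by omega
  nonempty := univ_nonempty
  isOpen := isOpen_univ
  convex := convex_univ
  metric := by
    refine ⟨fun x => ?_, fun x y h => ?_, fun x y => ?_, fun x y z => ?_⟩
    · simp [D, N_zero]
    · exact N_pos (sub_ne_zero.2 fun h' => h (Subtype.ext h'))
    · exact N_sub_comm _ _
    · unfold D
      have := N_add (x.1 - y.1) (y.1 - z.1)
      simpa using this
  usual_topology := by
    intro U
    rw [Metric.isOpen_iff]
    constructor
    · intro h x hx
      obtain ⟨ε, hε, hU⟩ := h x hx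
      refine ⟨ε, hε, fun y hy => hU ?_⟩
      rw [Metric.mem_ball, dist_comm, Subtype.dist_eq, dist_eq_norm]
      exact (norm_le_N _).trans_lt hy
    · intro h x hx
      obtain ⟨ε, hε, hU⟩ := h x hx
      refine ⟨ε / 2, by positivity, fun y hy => hU y ?_⟩
      rw [Metric.mem_ball, dist_comm, Subtype.dist_eq, dist_eq_norm] at hy
      have := N_le (x.1 - y.1)
      unfold D
      linarith
  between_iff := by
    intro x' y' z' hxy hyz hxz
    obtain ⟨x, hx⟩ := x'
    obtain ⟨y, hy⟩ := y'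
    obtain ⟨z, hz⟩ := z'
    have hxy' : x ≠ y := fun h => hxy (Subtype.ext h)
    have hyz' : y ≠ z := fun h => hyz (Subtype.ext h)
    have e : N (x - z) = N (z - x) := N_sub_comm x z
    have e1 : N (x - y) = N (y - x) := N_sub_comm x y
    have e2 : N (y - z) = N (z - y) := N_sub_comm y z
    have e3 : z - x = (y - x) + (z - y) := by abel
    show N (x - y) + N (y - z) = N (x - z) ↔ y ∈ openSegment ℝ x z
    rw [e, e1, e2, e3]
    constructor
    · intro h
      have h1 := sameRay_of_N_add h.symm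
      exact mem_openSegment_of_ne_left_right hxy' hyz'.symm (mem_segment_iff_sameRay.2 h1)
    · intro h
      exact (N_add_of_sameRay (mem_segment_iff_sameRay.1 (openSegment_subset_segment ℝ x z h))).symm

lemma affineOnLines (k : ℕ) : AffineOnLines (univ : Set (E (k + 3))) (D k) := by
  intro a v hv
  refine ⟨N v, N_pos hv, fun s t _ _ => ?_⟩
  show N ((a + s • v) - (a + t • v)) = N v * |s - t|
  have : (a + s • v) - (a + t • v) = (s - t) • v := by rw [sub_smul]; abel
  rw [this, N_smul, mul_comm]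

lemma regular (k : ℕ) : HasRegularPolygonProperty (D k) := by
  intro n hn A' B' hAB
  obtain ⟨A, hA⟩ := A'
  obtain ⟨B, hB⟩ := B'
  obtain ⟨P, h1, h2, h3, h4⟩ := exists_polygon n hn A B fun h => hAB (Subtype.ext h)
  refine ⟨fun i => ⟨P i, mem_univ _⟩, ⟨fun i j h => h1 (congrArg Subtype.val h), h2⟩, 0,
    Subtype.ext h3, Subtype.ext ?_⟩
  show P (0 + 1) = B
  rw [zero_add, h4]

lemma N_e0_smul_add (k : ℕ) (s t : ℝ) :
    N (s • e0 + t • (EuclideanSpace.single 2 1 : E (k + 3))) = √(s ^ 2 + t ^ 2) := by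
  have := N_plane w_single2 p_single2 (k := k) (⟨s, t⟩ : ℂ)
  rw [this, Complex.norm_def, Complex.normSq_mk]
  congr 1
  ring

lemma not_hyperbolic (k n : ℕ) (κ : ℝ) (hκ : 0 < κ) :
    ¬ IsometricTo (D k) (hyperbolicDist κ n) := by
  rintro ⟨f, hf⟩
  set t := √κ with ht
  have tpos : 0 < t := Real.sqrt_pos.2 hκ
  have key : ∀ (x y : E (k + 3)) (r : ℝ), 0 ≤ r → N (x - y) = r →
      B (f ⟨x, mem_univ _⟩) (f ⟨y, mem_univ _⟩) = Real.cosh (r * t) := by
    intro x y r hr h
    have h1 := hf ⟨x, mem_univ _⟩ ⟨y, mem_univ _⟩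
    have h2 : D k ⟨x, mem_univ _⟩ ⟨y, mem_univ _⟩ = r := h
    rw [h2] at h1
    have h3 : Real.arcosh (B (f ⟨x, mem_univ _⟩) (f ⟨y, mem_univ _⟩)) = r * t := by
      have h4 : Real.arcosh (B (f ⟨x, mem_univ _⟩) (f ⟨y, mem_univ _⟩)) / √κ = r := h1
      rw [div_eq_iff tpos.ne'] at h4
      exact h4
    rw [← h3, Real.cosh_arcosh (one_le_B _ _)]
  set u : E (k + 3) := EuclideanSpace.single 2 1 with hu
  have N3 : ∀ s t r : ℝ, 0 ≤ r → s ^ 2 + t ^ 2 = r ^ 2 → N (s • e0 + t • u) = r := by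
    intro s t r hr h
    rw [N_e0_smul_add, h, Real.sqrt_sq hr]
  have hab := key 0 ((3 : ℝ) • e0) 3 (by norm_num)
    ((congrArg N (by simp)).trans (N3 (-3) 0 3 (by norm_num) (by norm_num)))
  have hac := key 0 ((-3 : ℝ) • e0) 3 (by norm_num)
    ((congrArg N (by simp)).trans (N3 3 0 3 (by norm_num) (by norm_num)))
  have hbc := key ((3 : ℝ) • e0) ((-3 : ℝ) • e0) 6 (by norm_num)
    ((congrArg N (by rw [← sub_smul]; norm_num)).trans (N3 6 0 6 (by norm_num) (by norm_num)))
  have haq := key 0 ((4 : ℝ) • u) 4 (by norm_num)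
    ((congrArg N (by simp)).trans (N3 0 (-4) 4 (by norm_num) (by norm_num)))
  have hbq := key ((3 : ℝ) • e0) ((4 : ℝ) • u) 5 (by norm_num)
    ((congrArg N (by simp [sub_eq_add_neg])).trans (N3 3 (-4) 5 (by norm_num) (by norm_num)))
  have hcq := key ((-3 : ℝ) • e0) ((4 : ℝ) • u) 5 (by norm_num)
    ((congrArg N (by simp [sub_eq_add_neg])).trans (N3 (-3) (-4) 5 (by norm_num) (by norm_num)))
  have h6 : Real.cosh (6 * t) = 2 * Real.cosh (3 * t) ^ 2 - 1 := by
    have : 6 * t = 2 * (3 * t) := by ring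
    rw [this, Real.cosh_two_mul, Real.sinh_sq]; ring
  rw [h6] at hbc
  have := B_midpoint (q := f ⟨(4 : ℝ) • u, mem_univ _⟩) hab hac hbc
  rw [haq, hbq, hcq] at this
  exact not_cosh tpos (by linarith)

lemma not_euclidean (k n : ℕ) : ¬ IsometricTo (D k) (euclideanDist n) := by
  rintro ⟨f, hf⟩
  have hf' : ∀ x y : E (k + 3), dist (f ⟨x, mem_univ _⟩) (f ⟨y, mem_univ _⟩) = N (x - y) :=
    fun x y => hf ⟨x, mem_univ _⟩ ⟨y, mem_univ _⟩
  set x1 : E (k + 3) := EuclideanSpace.single 1 1 with hx1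
  set x2 : E (k + 3) := EuclideanSpace.single 2 1 with hx2
  have one_ne_zero' : (1 : Fin (k + 3)) ≠ 0 := by
    rw [Ne, Fin.ext_iff, Fin.val_one, Fin.val_zero]; omega
  have val : ∀ s t : ℝ, N (s • x1 + t • x2) = √(s ^ 2 + t ^ 2) + |s| := by
    intro s t
    set x := s • x1 + t • x2 with hx
    have c0 : x 0 = 0 := by simp [hx, hx1, hx2, one_ne_zero'.symm, two_ne_zero'.symm]
    have c1 : x 1 = s := by simp [hx, hx1, hx2, two_ne_one'.symm]
    have hw : w x = x := by unfold w; rw [c0, zero_smul, sub_zero]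
    have hn : ‖x‖ ^ 2 = s ^ 2 + t ^ 2 := by
      have h0 : ⟪s • x1, t • x2⟫ = 0 := by
        rw [inner_smul_left, inner_smul_right, hx1, hx2, EuclideanSpace.inner_single_left]
        simp [two_ne_one'.symm]
      rw [hx, norm_add_sq_real, h0, norm_smul, norm_smul, hx1, hx2]
      simp
    have hp : p x = √(s ^ 2 + t ^ 2) + |s| := by
      unfold p
      rw [hw, c1, ← hn, Real.sqrt_sq (norm_nonneg _)]
    have h1 : N x ^ 2 = p x ^ 2 := by rw [N_sq, c0]; ring
    rw [(pow_left_inj₀ (N_nonneg _) (p_nonneg _) two_ne_zero).1 h1, hp]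
  have v1 : N ((0 : E (k + 3)) - x2) = 1 := by
    have := val 0 (-1)
    rw [show (0 : E (k + 3)) - x2 = (0 : ℝ) • x1 + (-1 : ℝ) • x2 by simp, this]
    norm_num
  have v2 : N ((0 : E (k + 3)) - (-x2)) = 1 := by
    have := val 0 1
    rw [show (0 : E (k + 3)) - (-x2) = (0 : ℝ) • x1 + (1 : ℝ) • x2 by simp, this]
    norm_num
  have v3 : N (x2 - (-x2)) = 2 := by
    have := val 0 2
    rw [show x2 - (-x2) = (0 : ℝ) • x1 + (2 : ℝ) • x2 by rw [two_smul]; simp, this]
    norm_num
  have v4 : N (x1 - 0) = 2 := by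
    have := val 1 0
    rw [show x1 - 0 = (1 : ℝ) • x1 + (0 : ℝ) • x2 by simp, this]
    norm_num
  have v5 : N (x1 - x2) = √2 + 1 := by
    have := val 1 (-1)
    rw [show x1 - x2 = (1 : ℝ) • x1 + (-1 : ℝ) • x2 by simp [sub_eq_add_neg], this]
    norm_num
  have v6 : N (x1 - (-x2)) = √2 + 1 := by
    have := val 1 1
    rw [show x1 - (-x2) = (1 : ℝ) • x1 + (1 : ℝ) • x2 by simp, this]
    norm_num
  rw [← hf'] at v1 v2 v3 v4 v5 v6
  set a := f ⟨0, mem_univ _⟩
  set b := f ⟨x2, mem_univ _⟩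
  set c := f ⟨-x2, mem_univ _⟩
  set q := f ⟨x1, mem_univ _⟩
  have hmid : a = midpoint ℝ b c := by
    apply eq_midpoint_of_dist_eq_half
    · rw [dist_comm, v1, v3]; norm_num
    · rw [v2, v3]; norm_num
  have := EuclideanGeometry.dist_sq_add_dist_sq_eq_two_mul_dist_midpoint_sq_add_half_dist_sq q b c
  rw [← hmid, v5, v6, v4, v3] at this
  have h2 : √2 ^ 2 = 2 := Real.sq_sqrt (by norm_num)
  have h3 : 1 < √2 := by
    rw [Real.lt_sqrt (by norm_num)]; norm_num
  nlinarith

/-- **Theorem.** In every dimension `m ≥ 3` there is a projective-metric space of straight type,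
with carrier the whole affine space, every affine line being isometric to the real line, which
has the regular polygon property and is isometric neither to a Euclidean space nor to a
hyperbolic space (of whatever dimension and curvature). -/
theorem result : ∀ m : ℕ, 3 ≤ m →
    ∃ d : ↥(univ : Set (E m)) → ↥(univ : Set (E m)) → ℝ,
      IsStraightProjectiveMetric univ d ∧ AffineOnLines univ d ∧ HasRegularPolygonProperty d ∧
      (∀ n : ℕ, ¬ IsometricTo d (euclideanDist n)) ∧
      (∀ (n : ℕ) (κ : ℝ), 0 < κ → ¬ IsometricTo d (hyperbolicDist κ n)) := by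
  intro m hm
  obtain ⟨k, rfl⟩ := Nat.exists_eq_add_of_le' hm
  exact ⟨D k, isStraight k, affineOnLines k, regular k, not_euclidean k, not_hyperbolic k⟩

end Pool.Agent.Results.MP_a3bfba_gt.HighDim
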